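import Pool.Agent.Helper62.StrMilnor

/-!
# Finite type invariants of string links are not sums of Milnor invariants and invariants
vanishing on string links with free complement

For all `k ≥ 2` and `n ≥ 2` the subspace `M_n + N_n` of `V_n` is proper.  The invariant `v` of
order 2 is the second coefficient of the (normalised) torsion of the string link.  On the
rational string links `L_N`, the partial closures of `σ_{k}^{-2} σ_{k-1}^{2N} σ_{k} σ_{k-1}^{-2N}`,
whose complements are handlebodies, `v(L_N) = -4 N`, but all Milnor invariants of `L_N` are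
divisible by `K²` if `N` is divisible by `K` times a constant.
-/

namespace Pool.Agent.Results.MP_8b9055_gt.NotSum

open Pool.Agent.Helper62.StrLink

/-- Growth condition on the family satisfied by all polynomials in Milnor invariants. -/
def Slow (a : ℕ) (f : StringLink (a + 2) → ℚ) : Prop :=
  ∃ c D : ℕ, 0 < c ∧ 0 < D ∧ (∃ z : ℤ, D * f (fam a 0) = z) ∧
    ∀ K N : ℕ, c * K ∣ N → ∃ z : ℤ, D * (f (fam a N) - f (fam a 0)) = (K : ℚ) ^ 2 * z

theorem slow_milnor (a : ℕ) {s : ℕ} (I : Fin (s + 1) → Fin (a + 2)) (j : Fin (a + 2)) :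
    Slow a (milnor I j) := by
  refine ⟨Nat.factorial (s + 1), 1, Nat.factorial_pos _, one_pos, ?_, ?_⟩
  · obtain ⟨z, hz⟩ := milnor_fam a 1 0 I j (dvd_zero _)
    exact ⟨z, by rw [hz]; simp⟩
  · intro K N h
    obtain ⟨z, hz⟩ := milnor_fam a K N I j h
    obtain ⟨z', hz'⟩ := milnor_fam a K 0 I j (dvd_zero _)
    exact ⟨z - z', by rw [hz, hz']; push_cast; ring⟩

theorem slow_adjoin (a : ℕ) (f : StringLink (a + 2) → ℚ)
    (hf : f ∈ Algebra.adjoin ℚ {f : StringLink (a + 2) → ℚ |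
      ∃ (s : ℕ) (I : Fin (s + 1) → Fin (a + 2)) (j : Fin (a + 2)), f = milnor I j}) :
    Slow a f := by
  induction hf using Algebra.adjoin_induction with
  | mem x hx =>
    obtain ⟨s, I, j, rfl⟩ := hx
    exact slow_milnor a I j
  | algebraMap r =>
    refine ⟨1, r.den, one_pos, r.pos, ⟨r.num, ?_⟩, ?_⟩
    · have : (algebraMap ℚ (StringLink (a + 2) → ℚ)) r (fam a 0) = r := rfl
      rw [this]
      have := Rat.num_div_den r
      have hd : (r.den : ℚ) ≠ 0 := by exact_mod_cast r.den_nz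
      field_simp at this
      linarith [Rat.mul_den_eq_num r]
    · intro K N _
      have h1 : (algebraMap ℚ (StringLink (a + 2) → ℚ)) r (fam a 0) = r := rfl
      have h2 : (algebraMap ℚ (StringLink (a + 2) → ℚ)) r (fam a N) = r := rfl
      exact ⟨0, by rw [h1, h2]; simp⟩
  | add f g _ _ hf hg =>
    obtain ⟨c, D, hc, hD, ⟨z0, hz0⟩, h⟩ := hf
    obtain ⟨c', D', hc', hD', ⟨z0', hz0'⟩, h'⟩ := hg
    refine ⟨c * c', D * D', by positivity, by positivity, ⟨D' * z0 + D * z0', ?_⟩, ?_⟩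
    · simp only [Pi.add_apply]
      push_cast
      linear_combination (D' : ℚ) * hz0 + (D : ℚ) * hz0'
    · intro K N hN
      obtain ⟨z, hz⟩ := h K N (dvd_trans ⟨c', by ring⟩ hN)
      obtain ⟨z', hz'⟩ := h' K N (dvd_trans ⟨c, by ring⟩ hN)
      refine ⟨D' * z + D * z', ?_⟩
      simp only [Pi.add_apply]
      push_cast
      linear_combination (D' : ℚ) * hz + (D : ℚ) * hz'
  | mul f g _ _ hf hg =>
    obtain ⟨c, D, hc, hD, ⟨z0, hz0⟩, h⟩ := hf
    obtain ⟨c', D', hc', hD', ⟨z0', hz0'⟩, h'⟩ := hg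
    refine ⟨c * c', D * D', by positivity, by positivity, ⟨z0 * z0', ?_⟩, ?_⟩
    · simp only [Pi.mul_apply]
      push_cast
      linear_combination ((D' : ℚ) * g (fam a 0)) * hz0 + (z0 : ℚ) * hz0'
    · intro K N hN
      obtain ⟨z, hz⟩ := h K N (dvd_trans ⟨c', by ring⟩ hN)
      obtain ⟨z', hz'⟩ := h' K N (dvd_trans ⟨c, by ring⟩ hN)
      refine ⟨z * (z0' + K ^ 2 * z') + z0 * z', ?_⟩
      simp only [Pi.mul_apply]
      push_cast
      have e1 : (D' : ℚ) * g (fam a N) = z0' + (K : ℚ) ^ 2 * z' := by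
        linear_combination hz' + hz0'
      linear_combination (z0' + (K : ℚ) ^ 2 * z') * hz +
        (D * (f (fam a N) - f (fam a 0))) * e1 + (z0 : ℚ) * hz' +
        ((D' : ℚ) * (g (fam a N) - g (fam a 0))) * hz0

/-- **The answer to Q2 is negative**, for every number `k ≥ 2` of strands and every order
`n ≥ 2`: `M_n + N_n` is a proper subspace of `V_n`. -/
theorem result (k n : ℕ) (hk : 2 ≤ k) (hn : 2 ≤ n) : M k n ⊔ N k n < V k n := by
  obtain ⟨a, rfl⟩ : ∃ a, k = a + 2 := ⟨k - 2, by omega⟩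
  have hle : M (a + 2) n ⊔ N (a + 2) n ≤ V (a + 2) n :=
    sup_le inf_le_left (fun f hf => hf.1)
  refine lt_of_le_of_ne hle fun heq => ?_
  have hv : (vinv : StringLink (a + 2) → ℚ) ∈ M (a + 2) n ⊔ N (a + 2) n := by
    rw [heq]
    exact vinv_mem (a + 2) n hn
  obtain ⟨f, hf, g, hg, hfg⟩ := Submodule.mem_sup.1 hv
  obtain ⟨c, D, hc, hD, _, h⟩ := slow_adjoin a f hf.2
  have hval : ∀ N, f (fam a N) = -4 * N := by
    intro N
    have h1 := congrFun hfg (fam a N)
    have h2 : g (fam a N) = 0 := hg.2 _ (freeComplement_fam a N)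
    rw [Pi.add_apply, h2, add_zero] at h1
    rw [h1, vinv_fam]
  obtain ⟨z, hz⟩ := h (4 * c * D + 1) (c * (4 * c * D + 1)) dvd_rfl
  rw [hval, hval] at hz
  have hK : ((4 * c * D + 1 : ℕ) : ℚ) ≠ 0 := by positivity
  have h1 : (-(4 * c * D : ℕ) : ℚ) = ((4 * c * D + 1 : ℕ) : ℚ) * z := by
    have : ((4 * c * D + 1 : ℕ) : ℚ) * (-(4 * c * D : ℕ) : ℚ) =
        ((4 * c * D + 1 : ℕ) : ℚ) * (((4 * c * D + 1 : ℕ) : ℚ) * z) := by
      push_cast at hz ⊢
      linear_combination hz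
    exact mul_left_cancel₀ hK this
  have h2 : (-(4 * c * D : ℕ) : ℤ) = ((4 * c * D + 1 : ℕ) : ℤ) * z := by exact_mod_cast h1
  have h3 : ((4 * c * D + 1 : ℕ) : ℤ) ∣ ((4 * c * D : ℕ) : ℤ) := by
    rw [← dvd_neg]
    exact ⟨z, h2⟩
  have h4 := Int.natCast_dvd_natCast.1 h3
  have h5 := Nat.le_of_dvd (by positivity) h4
  omega

end Pool.Agent.Results.MP_8b9055_gt.NotSum
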